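import Pool.Agent.AEC.StmtsB

/-!
# Squad AEC, row SML: there are only few classes
-/

open FirstOrder FirstOrder.Language Cardinal Set

universe u

namespace Pool.Agent.AEC.H63

variable {L : FirstOrder.Language.{u, u}} {κ : Cardinal.{u}}

/-- Extensionality for abstract elementary classes. -/
theorem aec_ext (K K' : AEC L κ)
    (h1 : ∀ (M : Type u) [L.Structure M], K.mem M ↔ K'.mem M)
    (h2 : ∀ (M N : Type u) [L.Structure M] [L.Structure N] (f : M ↪[L] N),
      K.emb f ↔ K'.emb f) : K = K' := by
  rcases K with ⟨mem, emb, _, _, _, _, _, _, _, _, _, _⟩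
  rcases K' with ⟨mem', emb', _, _, _, _, _, _, _, _, _, _⟩
  have e1 : mem = mem' := by
    funext M i
    exact propext (h1 M)
  have e2 : @emb = @emb' := by
    funext M N i j f
    exact propext (h2 M N f)
  subst e1
  subst e2
  rfl

/-- Codes of embeddings between structures on subsets of `κ.out`. -/
structure Code (L : FirstOrder.Language.{u, u}) (κ : Cardinal.{u}) : Type u where
  X : Set κ.out
  sX : L.Structure X
  Y : Set κ.out
  sY : L.Structure Y
  f : X ↪[L] Y

/-- The set of the codes of the strong embeddings. -/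
def code (K : AEC L κ) : Set (Code L κ) :=
  {c | @AEC.emb L κ K c.X c.Y c.sX c.sY c.f}

/-- A set of size at most `κ` is equivalent to a subset of `κ.out`. -/
theorem exists_equiv_out {A : Type u} (hA : #A ≤ κ) : ∃ X : Set κ.out, Nonempty (A ≃ X) := by
  rw [← Cardinal.mk_out κ, Cardinal.le_def] at hA
  obtain ⟨i⟩ := hA
  exact ⟨Set.range i, ⟨Equiv.ofInjective i i.injective⟩⟩

/-- The strong embeddings between small structures are determined by the code. -/
theorem emb_small {K K' : AEC L κ} (h : code K = code K') {A B : Type u} [iA : L.Structure A]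
    [iB : L.Structure B] (hA : #A ≤ κ) (hB : #B ≤ κ) (f : A ↪[L] B) (hf : K.emb f) :
    K'.emb f := by
  obtain ⟨X, ⟨a⟩⟩ := exists_equiv_out hA
  obtain ⟨Y, ⟨b⟩⟩ := exists_equiv_out hB
  letI sX : L.Structure X := a.inducedStructure
  letI sY : L.Structure Y := b.inducedStructure
  let eA : A ≃[L] X := a.inducedStructureEquiv
  let eB : B ≃[L] Y := b.inducedStructureEquiv
  let g : X ↪[L] Y := eB.toEmbedding.comp (f.comp eA.symm.toEmbedding)
  have hX : K.mem X := K.cod (K.iso (K.dom hf) eA)
  have hg : K.emb g := K.comp (K.comp (K.iso hX eA.symm) hf) (K.iso (K.cod hf) eB)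
  have hmem : (⟨X, sX, Y, sY, g⟩ : Code L κ) ∈ code K := hg
  rw [h] at hmem
  have hg' : K'.emb g := hmem
  have hA' : K'.mem A := K'.cod (K'.iso (K'.dom hg') eA.symm)
  have h1 : K'.emb (eB.symm.toEmbedding.comp (g.comp eA.toEmbedding)) :=
    K'.comp (K'.comp (K'.iso hA' eA) hg') (K'.iso (K'.cod hg') eB.symm)
  have h2 : eB.symm.toEmbedding.comp (g.comp eA.toEmbedding) = f := by
    ext x
    show eB.symm (eB (f (eA.symm (eA x)))) = f x
    rw [eA.symm_apply_apply, eB.symm_apply_apply]
  rw [h2] at h1
  exact h1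

/-- The strong embeddings are determined by the code. -/
theorem emb_all (smc : SmcStmt.{u}) {K K' : AEC L κ} (h : code K = code K') {A B : Type u}
    [L.Structure A] [L.Structure B] (f : A ↪[L] B) (hf : K.emb f) : K'.emb f := by
  obtain ⟨S, mono, h1, h2, h3, h4⟩ := (smc L κ K A B f).1 hf
  exact (smc L κ K' A B f).2 ⟨S, mono, h1, h2,
    fun s t hst => emb_small h (h2 s) (h2 t) _ (h3 s t hst), h4⟩

theorem mem_all (smc : SmcStmt.{u}) {K K' : AEC L κ} (h : code K = code K') {A : Type u}
    [L.Structure A] (hA : K.mem A) : K'.mem A :=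
  K'.dom (emb_all smc h _ (K.iso hA (FirstOrder.Language.Equiv.refl L A)))

theorem code_injective (smc : SmcStmt.{u}) :
    Function.Injective (code : AEC L κ → Set (Code L κ)) := by
  intro K K' h
  exact aec_ext K K' (fun M _ => ⟨mem_all smc h, mem_all smc h.symm⟩)
    (fun M N _ _ f => ⟨emb_all smc h f, emb_all smc h.symm f⟩)

theorem sml (smc : SmcStmt.{u}) : SmlStmt.{u} := fun _ _ =>
  small_of_injective (code_injective smc)

end Pool.Agent.AEC.H63
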