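import Pool.Agent.AEC.StmtsB

open FirstOrder FirstOrder.Language Cardinal Set

universe u

namespace Pool.Agent.AEC.H63

theorem w2f (hnf : HnfStmt.{u}) (tpa : TpaStmt.{u}) (tpb : TpbStmt.{u}) (emx : EmxStmt.{u})
    (hS : S2fStmt.{u}) : W2fStmt.{u} := by
  intro κ
  obtain ⟨μ, hμ⟩ := hnf κ
  refine ⟨max μ ℵ₀, ?_⟩
  intro L K l χ hl hχ hlχ hc
  have hub : K.UbCat := (hμ L K).1 ⟨l, (le_max_left _ _).trans hl, hc⟩
  have hal : K.ArbLarge := by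
    intro m
    obtain ⟨l', hm, hc'⟩ := hub m
    obtain ⟨M, hM⟩ := hc'.1
    exact ⟨M, hM ▸ hm⟩
  obtain ⟨p, hp⟩ := tpa L κ K hal
  obtain ⟨E⟩ := emx L κ K (tpb L κ K p hp)
  obtain ⟨G, hG, hGP⟩ := hS L κ K E l χ hχ ((le_max_right _ _).trans hl) hlχ hc
  intro M hM A hA' ι B f hB'
  obtain ⟨θ⟩ := hc.2 G M hG hM
  have hAc : #(θ ⁻¹' A : Set G.α) ≤ χ := by
    refine le_trans ?_ hA'
    exact Cardinal.mk_preimage_of_injective θ A θ.injective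
  obtain ⟨Z, w, hw⟩ := hGP (θ ⁻¹' A) hAc ι B (fun i => (f i).comp (AEC.Hom.ofEquiv θ)) hB'
  refine ⟨Z, w, fun i j x hx => ?_⟩
  have h1 := hw i j (θ.symm x) (by
    change θ (θ.symm x) ∈ A
    rw [FirstOrder.Language.Equiv.apply_symm_apply]
    exact hx)
  have h2 : (AEC.Hom.ofEquiv θ) (θ.symm x) = x := by
    rw [AEC.Hom.ofEquiv_apply]
    exact FirstOrder.Language.Equiv.apply_symm_apply θ x
  simp only [AEC.Hom.comp_apply, h2] at h1
  exact h1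

end Pool.Agent.AEC.H63
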